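import Pool.Agent.MP_84a9df_co.H90.Hexagon

/-! The doubled point-line incidence graph: points of `F^3`, two copies of every line with
direction `(1, t, t^2)`. -/

namespace Pool.Agent.MP_84a9df_co.H90

open SimpleGraph Finset
open scoped Classical

variable {F : Type} [Field F]

/-- the point `p` lies on the line `l = (t, b, c)` -/
def onl (p l : F × F × F) : Prop := p.2.1 = l.2.1 + l.1 * p.1 ∧ p.2.2 = l.2.2 + l.1 ^ 2 * p.1

/-- vertex set -/
abbrev VV (F : Type) := (F × F × F) ⊕ ((F × F × F) × Bool)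

/-- adjacency -/
def adjGQ : VV F → VV F → Prop
  | .inl p, .inr l => onl p l.1
  | .inr l, .inl p => onl p l.1
  | .inl _, .inl _ => False
  | .inr _, .inr _ => False

/-- the graph -/
def GQ (F : Type) [Field F] : SimpleGraph (VV F) where
  Adj := adjGQ
  symm := ⟨by rintro (p | l) (p' | l') h <;> exact h⟩
  loopless := ⟨by rintro (p | l) h <;> exact h⟩

lemma x_ne {p p' l : F × F × F} (h : onl p l) (h' : onl p' l) (hne : p ≠ p') : p.1 ≠ p'.1 := by
  intro hx
  apply hne
  obtain ⟨x, y, z⟩ := p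
  obtain ⟨x', y', z'⟩ := p'
  simp only [onl] at h h' hx
  subst hx
  rw [h.1, h.2, h'.1, h'.2]

lemma line_eq_of_dir {p l l' : F × F × F} (h : onl p l) (h' : onl p l') (ht : l.1 = l'.1) :
    l = l' := by
  obtain ⟨t, b, c⟩ := l
  obtain ⟨t', b', c'⟩ := l'
  simp only [onl] at h h' ht
  subst ht
  have hb : b = b' := by linear_combination h'.1 - h.1
  have hc : c = c' := by linear_combination h'.2 - h.2
  rw [hb, hc]

lemma line_unique {p p' l l' : F × F × F} (hne : p ≠ p') (h1 : onl p l) (h2 : onl p' l)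
    (h1' : onl p l') (h2' : onl p' l') : l = l' := by
  have hx := x_ne h1 h2 hne
  refine line_eq_of_dir h1 h1' ?_
  have : (l.1 - l'.1) * (p.1 - p'.1) = 0 := by
    linear_combination h2.1 - h1.1 - h2'.1 + h1'.1
  rcases mul_eq_zero.1 this with h | h
  · exact sub_eq_zero.1 h
  · exact absurd (sub_eq_zero.1 h) hx

lemma no_tri {p1 p2 p3 l1 l2 l3 : F × F × F} (n12 : p1 ≠ p2) (n13 : p1 ≠ p3) (n23 : p2 ≠ p3)
    (h11 : onl p1 l1) (h21 : onl p2 l1) (h22 : onl p2 l2) (h32 : onl p3 l2) (h33 : onl p3 l3)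
    (h13 : onl p1 l3) : l1 = l2 ∧ l1 = l3 := by
  have hx := x_ne h11 h21 n12
  have key : (l1.1 - l2.1) * (l1.1 - l3.1) * (p2.1 - p1.1) = 0 := by
    linear_combination (h11.2 - h21.2 + h22.2 - h32.2 + h33.2 - h13.2) -
      (l2.1 + l3.1) * (h11.1 - h21.1 + h22.1 - h32.1 + h33.1 - h13.1)
  rcases mul_eq_zero.1 key with h | h
  · rcases mul_eq_zero.1 h with h | h
    · have e : l1 = l2 := line_eq_of_dir h21 h22 (sub_eq_zero.1 h)
      subst e
      exact ⟨rfl, line_unique n13 h11 h32 h13 h33⟩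
    · have e : l1 = l3 := line_eq_of_dir h11 h13 (sub_eq_zero.1 h)
      subst e
      exact ⟨line_unique n23 h21 h33 h22 h32, rfl⟩
  · exact absurd (sub_eq_zero.1 h).symm hx

lemma no_hex_aux {p1 p2 p3 : F × F × F} {m1 m2 m3 : (F × F × F) × Bool}
    (n12 : p1 ≠ p2) (n13 : p1 ≠ p3) (n23 : p2 ≠ p3) (k12 : m1 ≠ m2) (k13 : m1 ≠ m3)
    (k23 : m2 ≠ m3) (h11 : onl p1 m1.1) (h21 : onl p2 m1.1) (h22 : onl p2 m2.1)
    (h32 : onl p3 m2.1) (h33 : onl p3 m3.1) (h13 : onl p1 m3.1) : False := by
  obtain ⟨e1, e2⟩ := no_tri n12 n13 n23 h11 h21 h22 h32 h33 h13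
  obtain ⟨l1, b1⟩ := m1
  obtain ⟨l2, b2⟩ := m2
  obtain ⟨l3, b3⟩ := m3
  simp only at e1 e2
  subst e1 e2
  cases b1 <;> cases b2 <;> cases b3 <;> simp at k12 k13 k23

lemma not_hasC_six : ¬ HasC (GQ F) 6 := by
  rintro ⟨v, p, hp, hl⟩
  have hinj := hp.getVert_injOn'
  have hne : ∀ i j, i ≤ 5 → j ≤ 5 → i ≠ j → p.getVert i ≠ p.getVert j := by
    intro i j hi hj hij h
    exact hij (hinj (by simp [hl]; omega) (by simp [hl]; omega) h)
  have a0 := p.adj_getVert_succ (i := 0) (by omega)
  have a1 := p.adj_getVert_succ (i := 1) (by omega)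
  have a2 := p.adj_getVert_succ (i := 2) (by omega)
  have a3 := p.adj_getVert_succ (i := 3) (by omega)
  have a4 := p.adj_getVert_succ (i := 4) (by omega)
  have a5 := p.adj_getVert_succ (i := 5) (by omega)
  have e6 : p.getVert (5 + 1) = p.getVert 0 := by
    rw [Walk.getVert_zero, show 5 + 1 = p.length by omega, Walk.getVert_length]
  rw [e6] at a5
  have n02 := hne 0 2 (by omega) (by omega) (by omega)
  have n04 := hne 0 4 (by omega) (by omega) (by omega)
  have n24 := hne 2 4 (by omega) (by omega) (by omega)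
  have n13 := hne 1 3 (by omega) (by omega) (by omega)
  have n15 := hne 1 5 (by omega) (by omega) (by omega)
  have n35 := hne 3 5 (by omega) (by omega) (by omega)
  simp only [Nat.reduceAdd] at a0 a1 a2 a3 a4
  generalize p.getVert 0 = w0 at *
  generalize p.getVert 1 = w1 at *
  generalize p.getVert 2 = w2 at *
  generalize p.getVert 3 = w3 at *
  generalize p.getVert 4 = w4 at *
  generalize p.getVert 5 = w5 at *
  rcases w0 with w0 | w0 <;> rcases w1 with w1 | w1 <;> (try exact a0) <;>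
    rcases w2 with w2 | w2 <;> (try exact a1) <;> rcases w3 with w3 | w3 <;> (try exact a2) <;>
    rcases w4 with w4 | w4 <;> (try exact a3) <;> rcases w5 with w5 | w5 <;> (try exact a4)
  · exact no_hex_aux (p1 := w0) (p2 := w2) (p3 := w4) (m1 := w1) (m2 := w3) (m3 := w5)
      (fun h => n02 (by rw [h])) (fun h => n04 (by rw [h])) (fun h => n24 (by rw [h]))
      (fun h => n13 (by rw [h])) (fun h => n15 (by rw [h])) (fun h => n35 (by rw [h]))
      a0 a1 a2 a3 a4 a5
  · exact no_hex_aux (p1 := w1) (p2 := w3) (p3 := w5) (m1 := w2) (m2 := w4) (m3 := w0)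
      (fun h => n13 (by rw [h])) (fun h => n15 (by rw [h])) (fun h => n35 (by rw [h]))
      (fun h => n24 (by rw [h])) (fun h => n02 (by rw [h])) (fun h => n04 (by rw [h]))
      a1 a2 a3 a4 a5 a0

lemma even_length {v : VV F} (p : (GQ F).Walk v v) : Even p.length := by
  let c : (GQ F).Coloring Bool := Coloring.mk (fun v => v.isLeft) (by
    rintro (p | l) (p' | l') h
    · exact absurd h id
    · simp
    · simp
    · exact absurd h id)
  exact (c.even_length_iff_congr p).2 Iff.rfl

lemma chain_length : ∀ l : List (VV F), l.IsChain (GQ F).Adj →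
    l.length ≤ 2 * l.countP (fun v => v.isLeft) + 1
  | [], _ => by simp
  | [_], _ => by simp
  | a :: b :: rest, h => by
    have h1 : (GQ F).Adj a b := h.rel
    have h2 : rest.IsChain (GQ F).Adj := h.of_cons.tail
    have ih := chain_length rest h2
    simp only [List.length_cons, List.countP_cons]
    rcases a with a | a <;> rcases b with b | b
    · exact absurd h1 id
    · simp; omega
    · simp; omega
    · exact absurd h1 id

variable [Fintype F]

omit [Field F] in
lemma countP_le (l : List (VV F)) (hl : l.Nodup) :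
    l.countP (fun v => v.isLeft) ≤ Fintype.card F ^ 3 := by
  rw [List.countP_eq_length_filter, ← List.toFinset_card_of_nodup (hl.filter _)]
  have : (l.filter (fun v => v.isLeft)).toFinset ⊆
      (univ : Finset (F × F × F)).map ⟨Sum.inl, Sum.inl_injective⟩ := by
    rintro (p | m) h
    · simp
    · simp at h
  refine (Finset.card_le_card this).trans ?_
  rw [Finset.card_map, Finset.card_univ, Fintype.card_prod, Fintype.card_prod]
  exact le_of_eq (by ring)

lemma cycle_length_le {v : VV F} (p : (GQ F).Walk v v) (hp : p.IsCycle) :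
    p.length ≤ 2 * Fintype.card F ^ 3 + 1 := by
  have h1 := chain_length p.support.tail p.isChain_adj_support.tail
  have h2 := countP_le p.support.tail hp.support_nodup
  rw [List.length_tail, Walk.length_support] at h1
  omega

/-- no cycle of length `6` modulo `q ^ 3` -/
theorem no_cycle_mod (hodd : Odd (Fintype.card F)) {v : VV F} (p : (GQ F).Walk v v)
    (hp : p.IsCycle) : ¬ p.length ≡ 6 [MOD Fintype.card F ^ 3] := by
  intro h
  have h1 := cycle_length_le p hp
  have h2 := even_length p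
  have h3 : p.length ≠ 6 := fun h => not_hasC_six ⟨v, p, hp, h⟩
  have h4 : Odd (Fintype.card F ^ 3) := hodd.pow
  have h5 : 2 ^ 3 ≤ Fintype.card F ^ 3 := Nat.pow_le_pow_left Fintype.one_lt_card 3
  generalize Fintype.card F ^ 3 = k at *
  generalize p.length = L at *
  have h6 : L % k = 6 := by
    have := h
    unfold Nat.ModEq at this
    rw [this, Nat.mod_eq_of_lt (by omega)]
  have h7 := Nat.div_add_mod L k
  obtain ⟨r, hr⟩ := h2
  obtain ⟨s, hs⟩ := h4
  rcases hj : L / k with _ | _ | j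
  · rw [hj] at h7; omega
  · rw [hj] at h7; omega
  · rw [hj] at h7
    have : k * (j + 1 + 1) = k * j + 2 * k := by ring
    omega

omit [Field F] in
lemma card_VV : Fintype.card (VV F) = 3 * Fintype.card F ^ 3 := by
  simp only [Fintype.card_sum, Fintype.card_prod, Fintype.card_bool]
  ring

lemma card_prs_GQ : 4 * Fintype.card F ^ 4 ≤ (prs (GQ F)).card := by
  let f : ((F × F × F) × Bool) × F × Bool → VV F × VV F := fun z =>
    if z.2.2 then
      (.inl (z.2.1, z.1.1.2.1 + z.1.1.1 * z.2.1, z.1.1.2.2 + z.1.1.1 ^ 2 * z.2.1), .inr z.1)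
    else
      (.inr z.1, .inl (z.2.1, z.1.1.2.1 + z.1.1.1 * z.2.1, z.1.1.2.2 + z.1.1.1 ^ 2 * z.2.1))
  have h := Finset.card_le_card_of_injOn (s := univ) (t := prs (GQ F)) f ?_ ?_
  · refine le_trans (le_of_eq ?_) h
    simp only [Finset.card_univ, Fintype.card_prod, Fintype.card_bool]
    ring
  · rintro ⟨m, x, s⟩ _
    rw [mem_coe, mem_prs]
    cases s
    · exact ⟨rfl, rfl⟩
    · exact ⟨rfl, rfl⟩
  · rintro ⟨m, x, s⟩ _ ⟨m', x', s'⟩ _ h
    cases s <;> cases s' <;> simp [f] at h ⊢ <;> tauto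

end Pool.Agent.MP_84a9df_co.H90
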