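import Mathlib

/-! Dense cores of finite graphs, greedy paths. -/

namespace Pool.Agent.MP_84a9df_co.H90

open SimpleGraph Finset
open scoped Classical

variable {V : Type*} [Fintype V]

/-- neighbours -/
noncomputable def nb (H : SimpleGraph V) (v : V) : Finset V := univ.filter (fun w => H.Adj v w)

/-- ordered adjacent pairs -/
noncomputable def prs (H : SimpleGraph V) : Finset (V × V) :=
  univ.filter (fun p => H.Adj p.1 p.2)

/-- non-isolated vertices -/
noncomputable def sp (H : SimpleGraph V) : Finset V := univ.filter (fun v => ∃ w, H.Adj v w)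

/-- keep the edges both of whose orientations satisfy `P` -/
def restr (H : SimpleGraph V) (P : V → V → Prop) : SimpleGraph V where
  Adj x y := H.Adj x y ∧ P x y ∧ P y x
  symm := ⟨fun _ _ h => ⟨h.1.symm, h.2.2, h.2.1⟩⟩
  loopless := ⟨fun _ h => h.1.ne rfl⟩

omit [Fintype V] in
lemma restr_adj (H : SimpleGraph V) (P : V → V → Prop) (x y : V) :
    (restr H P).Adj x y ↔ H.Adj x y ∧ P x y ∧ P y x := Iff.rfl

omit [Fintype V] in
lemma restr_le (H : SimpleGraph V) (P : V → V → Prop) : restr H P ≤ H := fun _ _ h => h.1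

@[simp] lemma mem_nb {H : SimpleGraph V} {v w : V} : w ∈ nb H v ↔ H.Adj v w := by simp [nb]

@[simp] lemma mem_prs {H : SimpleGraph V} {p : V × V} : p ∈ prs H ↔ H.Adj p.1 p.2 := by
  simp [prs]

@[simp] lemma mem_sp {H : SimpleGraph V} {v : V} : v ∈ sp H ↔ ∃ w, H.Adj v w := by simp [sp]

lemma sp_mono {H K : SimpleGraph V} (h : K ≤ H) : sp K ⊆ sp H := by
  intro v hv
  rw [mem_sp] at hv ⊢
  obtain ⟨w, hw⟩ := hv
  exact ⟨w, h hw⟩

lemma sum_prs {M : Type*} [AddCommMonoid M] (H : SimpleGraph V) (f : V → V → M) :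
    ∑ p ∈ prs H, f p.1 p.2 = ∑ a, ∑ b ∈ nb H a, f a b := by
  unfold prs nb
  rw [Finset.sum_filter, Fintype.sum_prod_type]
  refine Finset.sum_congr rfl fun a _ => ?_
  rw [Finset.sum_filter]

lemma sum_prs_swap {M : Type*} [AddCommMonoid M] (H : SimpleGraph V) (f : V → V → M) :
    ∑ p ∈ prs H, f p.1 p.2 = ∑ p ∈ prs H, f p.2 p.1 := by
  refine Finset.sum_bij' (fun p _ => p.swap) (fun p _ => p.swap) ?_ ?_ ?_ ?_ ?_
  · intro p hp; rw [mem_prs] at hp ⊢; exact hp.symm
  · intro p hp; rw [mem_prs] at hp ⊢; exact hp.symm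
  · intro p _; simp
  · intro p _; simp
  · intro p _; simp

lemma card_prs (H : SimpleGraph V) : (prs H).card = ∑ v, (nb H v).card := by
  have := sum_prs H (fun _ _ => (1 : ℕ))
  simpa using this

lemma card_prs_eq (H : SimpleGraph V) : (prs H).card = 2 * H.edgeSet.ncard := by
  rw [card_prs, Set.ncard_eq_toFinset_card', ← SimpleGraph.edgeFinset,
    ← H.sum_degrees_eq_twice_card_edges]
  refine Finset.sum_congr rfl fun v _ => ?_
  rw [← SimpleGraph.card_neighborFinset_eq_degree]
  congr 1
  ext w
  simp

/-- every dense graph has a dense subgraph, connected on its support and of large minimum degree -/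
lemma exists_core (H : SimpleGraph V) (t : ℕ) (h : t * (sp H).card < (prs H).card) :
    ∃ K ≤ H, t * (sp K).card < (prs K).card ∧ (∀ v ∈ sp K, t < 2 * (nb K v).card) ∧
      ∀ u ∈ sp K, ∀ v ∈ sp K, K.Reachable u v := by
  obtain ⟨K, hK, hmin⟩ := Finset.exists_min_image
    (univ.filter (fun K : SimpleGraph V => K ≤ H ∧ t * (sp K).card < (prs K).card))
    (fun K => (prs K).card) ⟨H, by simp [h]⟩
  simp only [mem_filter, mem_univ, true_and] at hK hmin
  have key : ∀ K' ≤ K, (prs K').card < (prs K).card → (prs K').card ≤ t * (sp K').card := by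
    intro K' h1 h2
    by_contra h3
    have := hmin K' ⟨h1.trans hK.1, by omega⟩
    omega
  refine ⟨K, hK.1, hK.2, ?_, ?_⟩
  · intro v hv
    obtain ⟨w, hw⟩ := mem_sp.1 hv
    set K' := restr K (fun x _ => x ≠ v) with hK'
    have h1 : (prs K').card < (prs K).card := by
      apply Finset.card_lt_card
      refine ⟨fun p hp => ?_, fun hsub => ?_⟩
      · rw [mem_prs] at hp ⊢; exact hp.1
      · have := hsub (show (v, w) ∈ prs K from mem_prs.2 hw)
        rw [mem_prs] at this
        exact this.2.1 rfl
    have h2 : (prs K).card ≤ (prs K').card + 2 * (nb K v).card := by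
      have : prs K ⊆ prs K' ∪ ((nb K v).image (fun w => (v, w)) ∪ (nb K v).image (fun w => (w, v))) := by
        rintro ⟨x, y⟩ hp
        rw [mem_prs] at hp
        simp only [mem_union, mem_prs, mem_image, mem_nb, Prod.mk.injEq]
        by_cases hx : x = v
        · subst hx; right; left; exact ⟨y, hp, rfl, rfl⟩
        by_cases hy : y = v
        · subst hy; right; right; exact ⟨x, hp.symm, rfl, rfl⟩
        left; exact ⟨hp, hx, hy⟩
      have h3 := Finset.card_le_card this
      have h4 := Finset.card_union_le (prs K')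
        ((nb K v).image (fun w => (v, w)) ∪ (nb K v).image (fun w => (w, v)))
      have h5 := Finset.card_union_le ((nb K v).image (fun w => (v, w)))
        ((nb K v).image (fun w => (w, v)))
      have h6 : ((nb K v).image (fun w => (v, w))).card ≤ (nb K v).card := Finset.card_image_le
      have h7 : ((nb K v).image (fun w => (w, v))).card ≤ (nb K v).card := Finset.card_image_le
      omega
    have h3 : (sp K').card + 1 ≤ (sp K).card := by
      apply Finset.card_lt_card
      refine ⟨sp_mono (restr_le _ _), fun hsub => ?_⟩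
      obtain ⟨z, hz⟩ := mem_sp.1 (hsub hv)
      exact hz.2.1 rfl
    have h4 := key K' (restr_le _ _) h1
    have h5 : t * ((sp K').card + 1) ≤ t * (sp K).card := Nat.mul_le_mul_left _ h3
    have h6 := hK.2
    rw [mul_add] at h5
    omega
  · intro u hu v hv
    by_contra hne
    obtain ⟨u', hu'⟩ := mem_sp.1 hu
    obtain ⟨v', hv'⟩ := mem_sp.1 hv
    set K1 := restr K (fun x _ => K.Reachable u x) with hK1
    set K2 := restr K (fun x _ => ¬ K.Reachable u x) with hK2
    have h1 : (prs K1).card < (prs K).card := by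
      apply Finset.card_lt_card
      refine ⟨fun p hp => ?_, fun hsub => ?_⟩
      · rw [mem_prs] at hp ⊢; exact hp.1
      · have := hsub (show (v, v') ∈ prs K from mem_prs.2 hv')
        rw [mem_prs] at this
        exact hne this.2.1
    have h2 : (prs K2).card < (prs K).card := by
      apply Finset.card_lt_card
      refine ⟨fun p hp => ?_, fun hsub => ?_⟩
      · rw [mem_prs] at hp ⊢; exact hp.1
      · have := hsub (show (u, u') ∈ prs K from mem_prs.2 hu')
        rw [mem_prs] at this
        exact this.2.1 (Reachable.refl u)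
    have h3 : (prs K).card ≤ (prs K1).card + (prs K2).card := by
      refine le_trans (Finset.card_le_card ?_) (Finset.card_union_le _ _)
      rintro ⟨x, y⟩ hp
      rw [mem_prs] at hp
      simp only [mem_union, mem_prs]
      by_cases hx : K.Reachable u x
      · left; exact ⟨hp, hx, hx.trans hp.reachable⟩
      · right; exact ⟨hp, hx, fun hy => hx (hy.trans hp.symm.reachable)⟩
    have h4 : (sp K1).card + (sp K2).card ≤ (sp K).card := by
      rw [← Finset.card_union_of_disjoint]
      · apply Finset.card_le_card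
        exact Finset.union_subset (sp_mono (restr_le _ _)) (sp_mono (restr_le _ _))
      · rw [Finset.disjoint_left]
        intro x hx1 hx2
        obtain ⟨a, ha⟩ := mem_sp.1 hx1
        obtain ⟨b, hb⟩ := mem_sp.1 hx2
        exact hb.2.1 ha.2.1
    have h5 := key K1 (restr_le _ _) h1
    have h6 := key K2 (restr_le _ _) h2
    have h7 : t * ((sp K1).card + (sp K2).card) ≤ t * (sp K).card := Nat.mul_le_mul_left _ h4
    have h8 := hK.2
    rw [mul_add] at h7
    omega

/-- pigeonhole over a cover of the edges -/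
lemma exists_dense_part {ι : Type*} (H : SimpleGraph V) (J : Finset ι) (K : ι → SimpleGraph V)
    (m t : ℕ) (hcov : ∀ x y, H.Adj x y → ∃ j ∈ J, (K j).Adj x y)
    (hsp : ∑ j ∈ J, (sp (K j)).card ≤ m * (sp H).card)
    (h : m * t * (sp H).card < (prs H).card) :
    ∃ j ∈ J, t * (sp (K j)).card < (prs (K j)).card := by
  by_contra hc
  push Not at hc
  have h1 : (prs H).card ≤ ∑ j ∈ J, (prs (K j)).card := by
    refine le_trans (Finset.card_le_card ?_) Finset.card_biUnion_le
    rintro ⟨x, y⟩ hp
    rw [mem_prs] at hp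
    obtain ⟨j, hj, hjx⟩ := hcov x y hp
    exact Finset.mem_biUnion.2 ⟨j, hj, mem_prs.2 hjx⟩
  have h2 : ∑ j ∈ J, (prs (K j)).card ≤ t * ∑ j ∈ J, (sp (K j)).card := by
    rw [Finset.mul_sum]
    exact Finset.sum_le_sum hc
  have h3 : t * ∑ j ∈ J, (sp (K j)).card ≤ t * (m * (sp H).card) := Nat.mul_le_mul_left _ hsp
  have h4 : t * (m * (sp H).card) = m * t * (sp H).card := by ring
  omega

lemma support_subset_sp {K : SimpleGraph V} {a b : V} (p : K.Walk a b) (hb : b ∈ sp K) :
    ∀ v ∈ p.support, v ∈ sp K := by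
  induction p with
  | nil => intro v hv; simp at hv; subst hv; exact hb
  | cons h p ih =>
    intro v hv
    rw [Walk.support_cons, List.mem_cons] at hv
    rcases hv with rfl | hv
    · exact mem_sp.2 ⟨_, h⟩
    · exact ih hb v hv

/-- greedy paths -/
lemma exists_path (K : SimpleGraph V) (δ : ℕ) (hδ : ∀ v ∈ sp K, δ ≤ (nb K v).card)
    (w : V) (hw : w ∈ sp K) :
    ∀ j ≤ δ, ∃ z, ∃ p : K.Walk z w, p.IsPath ∧ p.length = j := by
  intro j
  induction j with
  | zero => intro _; exact ⟨w, Walk.nil, Walk.IsPath.nil, rfl⟩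
  | succ j ih =>
    intro hj
    obtain ⟨z, p, hp, hl⟩ := ih (by omega)
    have hz : z ∈ sp K := support_subset_sp p hw z p.start_mem_support
    have h1 : ¬ nb K z ⊆ p.support.toFinset.erase z := by
      intro hsub
      have h2 := Finset.card_le_card hsub
      rw [Finset.card_erase_of_mem (by simp), List.toFinset_card_of_nodup hp.support_nodup,
        Walk.length_support] at h2
      have := hδ z hz
      omega
    rw [Finset.not_subset] at h1
    obtain ⟨y, hy1, hy2⟩ := h1
    rw [mem_nb] at hy1
    have hy3 : y ∉ p.support := by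
      intro hy
      apply hy2
      rw [Finset.mem_erase]
      exact ⟨hy1.ne', by simpa using hy⟩
    refine ⟨y, Walk.cons hy1.symm p, ?_, by simp [hl]⟩
    rw [Walk.cons_isPath_iff]
    exact ⟨hp, hy3⟩

end Pool.Agent.MP_84a9df_co.H90
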