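import Pool.Agent.MP_84a9df_co.H90.Hexagon

/-! For odd `k`, large average degree forces a cycle of any prescribed length modulo `k`. -/

namespace Pool.Agent.MP_84a9df_co.H90

open SimpleGraph Finset
open scoped Classical

section noFintype

variable {V : Type*}

/-- paths through a breadth-first tree -/
lemma tree_path (G : SimpleGraph V) (S : Set V) (lev : V → ℕ) (par : V → V)
    (hpar : ∀ v ∈ S, 0 < lev v → G.Adj v (par v) ∧ par v ∈ S ∧ lev (par v) + 1 = lev v) :
    ∀ (h i : ℕ) (a b : V), a ∈ S → b ∈ S → lev a = i → lev b = i → h + 1 ≤ i →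
      par^[h] a ≠ par^[h] b → par^[h + 1] a = par^[h + 1] b →
      ∃ p : G.Walk a b, p.IsPath ∧ p.length = 2 * (h + 1) ∧
        ∀ v ∈ p.support, v = a ∨ v = b ∨ lev v < i := by
  intro h
  induction h with
  | zero =>
    intro i a b ha hb la lb hi hne heq
    simp only [Function.iterate_zero, id_eq, zero_add, Function.iterate_one] at hne heq
    obtain ⟨a1, -, a3⟩ := hpar a ha (by omega)
    obtain ⟨b1, -, b3⟩ := hpar b hb (by omega)
    rw [← heq] at b1
    refine ⟨.cons a1 (.cons b1.symm .nil), ?_, rfl, ?_⟩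
    · have := a1.ne
      have := b1.ne
      simp only [Walk.isPath_def, Walk.support_cons, Walk.support_nil, List.nodup_cons,
        List.mem_cons, List.not_mem_nil, List.nodup_nil]
      grind
    · intro v hv
      simp only [Walk.support_cons, Walk.support_nil, List.mem_cons, List.not_mem_nil] at hv
      rcases hv with rfl | rfl | rfl | h
      · left; rfl
      · right; right; omega
      · right; left; rfl
      · exact absurd h id
  | succ h ih =>
    intro i a b ha hb la lb hi hne heq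
    obtain ⟨a1, a2, a3⟩ := hpar a ha (by omega)
    obtain ⟨b1, b2, b3⟩ := hpar b hb (by omega)
    have hab : a ≠ b := by rintro rfl; exact hne rfl
    rw [Function.iterate_succ_apply, Function.iterate_succ_apply] at hne
    rw [Function.iterate_succ_apply, Function.iterate_succ_apply par (h + 1) b] at heq
    obtain ⟨p, hp, hl, hs⟩ := ih (i - 1) (par a) (par b) a2 b2 (by omega) (by omega) (by omega)
      hne heq
    have hlev : ∀ v ∈ p.support, lev v < i := by
      intro v hv
      rcases hs v hv with rfl | rfl | h <;> omega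
    have hna : a ∉ p.support := fun h => by have := hlev a h; omega
    have hnb : b ∉ p.support := fun h => by have := hlev b h; omega
    refine ⟨.cons a1 (p.concat b1.symm), ?_, ?_, ?_⟩
    · rw [Walk.cons_isPath_iff, Walk.concat_isPath_iff]
      refine ⟨⟨hp, hnb⟩, ?_⟩
      rw [Walk.support_concat]
      simp [hna, hab]
    · rw [Walk.length_cons, Walk.length_concat, hl]; ring
    · intro v hv
      rw [Walk.support_cons, Walk.support_concat] at hv
      simp only [List.mem_cons, List.mem_append, List.not_mem_nil, or_false] at hv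
      rcases hv with rfl | hv | rfl
      · left; rfl
      · right; right; exact hlev v hv
      · right; left; rfl

/-- initial segment of a path up to its first vertex in `T` -/
lemma first_hit {K : SimpleGraph V} (T : Set V) {b w0 : V} (p : K.Walk b w0) (hp : p.IsPath)
    (hw : w0 ∈ T) : ∃ w ∈ T, ∃ P : K.Walk b w, P.IsPath ∧ (∀ v ∈ P.support, v ∈ p.support) ∧
      ∀ v ∈ P.support, v ∈ T → v = w := by
  induction p with
  | nil => exact ⟨_, hw, .nil, Walk.IsPath.nil, fun v hv => hv, fun v hv _ => by simpa using hv⟩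
  | @cons x y z h p ih =>
    by_cases hx : x ∈ T
    · refine ⟨x, hx, .nil, Walk.IsPath.nil, fun v hv => ?_, fun v hv _ => by simpa using hv⟩
      simp only [Walk.support_nil, List.mem_singleton] at hv
      simp [hv]
    · rw [Walk.cons_isPath_iff] at hp
      obtain ⟨w, hwT, P, hP, hs, ht⟩ := ih hp.1 hw
      refine ⟨w, hwT, .cons h P, ?_, ?_, ?_⟩
      · rw [Walk.cons_isPath_iff]
        exact ⟨hP, fun hh => hp.2 (hs _ hh)⟩
      · intro v hv
        rw [Walk.support_cons, List.mem_cons] at hv ⊢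
        exact hv.imp id (hs v)
      · intro v hv hvT
        rw [Walk.support_cons, List.mem_cons] at hv
        rcases hv with rfl | hv
        · exact absurd hvT hx
        · exact ht v hv hvT

lemma parity_out {K : SimpleGraph V} (A : Set V) (hA : ∀ x y, K.Adj x y → (x ∈ A ↔ y ∉ A))
    {z w : V} (p : K.Walk z w) : z ∈ A ↔ (w ∈ A ↔ p.length % 2 = 0) := by
  induction p with
  | nil => simp
  | cons h p ih =>
    rw [hA _ _ h, ih, Walk.length_cons]
    have : (p.length + 1) % 2 = 0 ↔ ¬ p.length % 2 = 0 := by omega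
    rw [this]
    tauto

lemma exists_res (k l M : ℕ) (hk : Odd k) : ∃ s < k, M + 2 * s ≡ l [MOD k] := by
  obtain ⟨m, rfl⟩ := hk
  refine ⟨((l + 2 * m * M) * (m + 1)) % (2 * m + 1), Nat.mod_lt _ (by omega), ?_⟩
  have h1 : M + 2 * (((l + 2 * m * M) * (m + 1)) % (2 * m + 1)) ≡
      M + 2 * ((l + 2 * m * M) * (m + 1)) [MOD (2 * m + 1)] :=
    ((Nat.mod_modEq _ _).mul_left 2).add_left M
  refine h1.trans ?_
  have h2 : M + 2 * ((l + 2 * m * M) * (m + 1)) =
      l + (2 * m + 1) * (l + 2 * m * M + M) := by ring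
  rw [h2]
  unfold Nat.ModEq
  simp

end noFintype

variable {V : Type*} [Fintype V]

/-- the last step: a dense piece `K2` whose suitable walks end in `A`, and a vertex `b` of the
connected graph `K1` joined to every vertex of `A` by an outside path of a fixed length -/
lemma close_cycle (G K1 K2 : SimpleGraph V) (h1 : K1 ≤ G) (h2 : K2 ≤ K1) (k l M : ℕ) (hk : Odd k)
    (hM : 1 < M) (A : Set V) (b : V) (hb : b ∈ sp K1)
    (hconn : ∀ u ∈ sp K1, ∀ v ∈ sp K1, K1.Reachable u v)
    (hne : (sp K2).Nonempty) (hdeg : ∀ v ∈ sp K2, 2 * k ≤ (nb K2 v).card)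
    (hpar : ∀ w ∈ sp K2, ∃ e ≤ 1, ∀ z (p : K2.Walk z w), p.length % 2 = e → z ∈ A)
    (hout : ∀ a ∈ A, ∃ p : G.Walk a b, p.IsPath ∧ p.length = M ∧
      ∀ v ∈ p.support, v = a ∨ v = b ∨ v ∉ sp K1) :
    ∃ L, L ≡ l [MOD k] ∧ HasC G L := by
  obtain ⟨w0, hw0⟩ := hne
  obtain ⟨p0, hp0, -⟩ := (hconn b hb w0 (sp_mono h2 hw0)).exists_path_of_dist
  obtain ⟨w, hw, P, hP, -, hPT⟩ := first_hit (↑(sp K2) : Set V) p0 hp0 hw0
  have hw' : w ∈ sp K2 := hw
  obtain ⟨e, he, hA⟩ := hpar w hw'
  obtain ⟨s, hs, hres⟩ := exists_res k l (M + P.length + e) hk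
  obtain ⟨z, Q, hQ, hQl⟩ := exists_path K2 (2 * k) hdeg w hw' (e + 2 * s) (by omega)
  have hz : z ∈ A := hA z Q (by omega)
  obtain ⟨T, hT, hTl, hTs⟩ := hout z hz
  have hQs : ∀ v ∈ Q.support, v ∈ sp K2 := support_subset_sp Q hw'
  have hPs : ∀ v ∈ P.support, v ∈ sp K1 := support_subset_sp P (sp_mono h2 hw')
  let R : G.Walk b z := (P.mapLe h1).append (Q.reverse.mapLe (h2.trans h1))
  have hRsupp : R.support = P.support ++ Q.support.reverse.tail := by
    simp [R, Walk.support_append]
  have hQr : Q.support.reverse = w :: Q.support.reverse.tail := by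
    rw [← Walk.support_reverse]
    exact Q.reverse.cons_tail_support.symm
  have hQnd : (w :: Q.support.reverse.tail).Nodup := by
    rw [← hQr]; exact List.nodup_reverse.2 hQ.support_nodup
  have hQmem : ∀ v ∈ Q.support.reverse.tail, v ∈ sp K2 := by
    intro v hv
    exact hQs v (List.mem_reverse.1 (List.mem_of_mem_tail hv))
  have hR : R.IsPath := by
    rw [Walk.isPath_def, hRsupp, List.nodup_append']
    refine ⟨hP.support_nodup, (List.nodup_cons.1 hQnd).2, ?_⟩
    intro v hv1 hv2
    have := hPT v hv1 (hQmem v hv2)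
    subst this
    exact (List.nodup_cons.1 hQnd).1 hv2
  have hRs : ∀ v ∈ R.support, v ∈ sp K1 := by
    intro v hv
    rw [hRsupp, List.mem_append] at hv
    rcases hv with hv | hv
    · exact hPs v hv
    · exact sp_mono h2 (hQmem v hv)
  refine ⟨M + P.length + e + 2 * s, hres, z, T.append R, ?_, ?_⟩
  · refine hT.isCycle_append hR ?_ (Or.inl (by omega))
    intro v hv1 hv2
    have hT' := hT.support_nodup
    have hR' := hR.support_nodup
    rw [← T.cons_tail_support] at hT'
    rw [← R.cons_tail_support] at hR'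
    rcases hTs v (List.mem_of_mem_tail hv1) with rfl | rfl | h
    · exact (List.nodup_cons.1 hT').1 hv1
    · exact (List.nodup_cons.1 hR').1 hv2
    · exact h (hRs v (List.mem_of_mem_tail hv2))
  · simp only [R, Walk.length_append, Walk.length_mapLe, Walk.length_reverse]
    omega

/-- from a connected dense graph between two levels -/
lemma two_sides (G K1 : SimpleGraph V) (h1 : K1 ≤ G) (k l M : ℕ) (hk : Odd k)
    (hM : 1 < M) (A : Bool → Set V) (hb : ∀ σ, ∃ b ∈ A σ, b ∈ sp K1)
    (hconn : ∀ u ∈ sp K1, ∀ v ∈ sp K1, K1.Reachable u v)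
    (hcov : ∀ x y, K1.Adj x y → ∃ σ, x ∈ A σ ∨ y ∈ A σ)
    (hdense : 4 * (4 * k) * (sp K1).card < (prs K1).card)
    (hout : ∀ σ, ∀ a ∈ A σ, ∀ b ∈ A (!σ), ∃ p : G.Walk a b, p.IsPath ∧ p.length = M ∧
      ∀ v ∈ p.support, v = a ∨ v = b ∨ v ∉ sp K1) :
    ∃ L, L ≡ l [MOD k] ∧ HasC G L := by
  let K : Bool × Bool → SimpleGraph V := fun j =>
    restr K1 (fun x y => if j.2 then x ∈ A j.1 else (x ∈ A j.1 ↔ y ∉ A j.1))
  obtain ⟨⟨σ, τ⟩, -, hj⟩ := exists_dense_part K1 univ K 4 (4 * k) (by
    intro x y hxy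
    obtain ⟨σ, hσ⟩ := hcov x y hxy
    by_cases hh : x ∈ A σ ∧ y ∈ A σ
    · exact ⟨(σ, true), mem_univ _, hxy, by simpa using hh.1, by simpa using hh.2⟩
    · refine ⟨(σ, false), mem_univ _, hxy, ?_, ?_⟩
      · simp only [Bool.false_eq_true, if_false]; tauto
      · simp only [Bool.false_eq_true, if_false]; tauto) (by
    have : ∀ j ∈ (univ : Finset (Bool × Bool)), (sp (K j)).card ≤ (sp K1).card :=
      fun j _ => Finset.card_le_card (sp_mono (restr_le _ _))
    have h := Finset.sum_le_card_nsmul _ _ _ this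
    simpa using h) hdense
  obtain ⟨K2, hK2le, hK21, hK22, -⟩ := exists_core _ _ hj
  obtain ⟨b, hbA, hb'⟩ := hb (!σ)
  refine close_cycle G K1 K2 h1 (hK2le.trans (restr_le _ _)) k l M hk hM (A σ) b hb' hconn ?_
    (fun v hv => by have := hK22 v hv; omega) ?_ (fun a ha => hout σ a ha b hbA)
  · have hne : (prs K2).Nonempty := by
      rw [← Finset.card_pos]; omega
    obtain ⟨⟨w, w'⟩, hw⟩ := hne
    exact ⟨w, mem_sp.2 ⟨w', mem_prs.1 hw⟩⟩
  · intro w hw
    cases τ
    · have hA : ∀ x y, K2.Adj x y → (x ∈ A σ ↔ y ∉ A σ) := by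
        intro x y hxy
        have := (hK2le hxy).2.1
        simpa using this
      by_cases hwA : w ∈ A σ
      · exact ⟨0, by omega, fun z p hp => (parity_out _ hA p).2 (by simp [hwA, hp])⟩
      · exact ⟨1, by omega, fun z p hp => (parity_out _ hA p).2 (by simp [hwA, hp])⟩
    · refine ⟨0, by omega, fun z p _ => ?_⟩
      obtain ⟨y, hy⟩ := mem_sp.1 (support_subset_sp p hw z p.start_mem_support)
      have := (hK2le hy).2.1
      simpa using this

theorem exists_cycle_mod (G : SimpleGraph V) (k l : ℕ) (hk : Odd k)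
    (h : 2 * (4 * (4 * k)) * Fintype.card V < (prs G).card) :
    ∃ L, L ≡ l [MOD k] ∧ HasC G L := by
  have hk0 : 0 < k := hk.pos
  have h0 : (sp G).card ≤ Fintype.card V := Finset.card_le_univ _
  have h0' : 2 * (4 * (4 * k)) * (sp G).card ≤ 2 * (4 * (4 * k)) * Fintype.card V :=
    Nat.mul_le_mul_left _ h0
  obtain ⟨K0, hK0le, hK01, -, hK0c⟩ := exists_core G (2 * (4 * (4 * k))) (by omega)
  obtain ⟨r, hr⟩ : (sp K0).Nonempty := by
    have hne : (prs K0).Nonempty := by
      rw [← Finset.card_pos]; omega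
    obtain ⟨⟨w, w'⟩, hw⟩ := hne
    exact ⟨w, mem_sp.2 ⟨w', mem_prs.1 hw⟩⟩
  let lev : V → ℕ := fun v => K0.dist v r
  have hlev0 : ∀ v ∈ sp K0, lev v = 0 → v = r := fun v hv h =>
    (hK0c v hv r hr).dist_eq_zero_iff.1 h
  have hlevadj : ∀ x y, K0.Adj x y → lev x ≤ lev y + 1 := by
    intro x y hxy
    obtain ⟨p, hp⟩ := (hK0c y (mem_sp.2 ⟨x, hxy.symm⟩) r hr).exists_walk_length_eq_dist
    have := K0.dist_le (Walk.cons hxy p)
    rw [Walk.length_cons, hp] at this
    exact this
  have hex : ∀ v, ∃ w, v ∈ sp K0 → 0 < lev v → G.Adj v w ∧ w ∈ sp K0 ∧ lev w + 1 = lev v := by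
    intro v
    by_cases hv : v ∈ sp K0 ∧ 0 < lev v
    · obtain ⟨p, hp⟩ := (hK0c v hv.1 r hr).exists_walk_length_eq_dist
      cases p with
      | nil => have := hv.2; simp [lev] at this
      | @cons _ w _ hvw p =>
        refine ⟨w, fun _ _ => ⟨hK0le hvw, mem_sp.2 ⟨v, hvw.symm⟩, ?_⟩⟩
        have h1 := K0.dist_le p
        have h2 := hlevadj _ _ hvw
        rw [Walk.length_cons] at hp
        simp only [lev] at h2 ⊢
        omega
    · exact ⟨v, fun h1 h2 => absurd ⟨h1, h2⟩ hv⟩
  choose par hpar using hex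
  have hiter : ∀ j, ∀ v ∈ sp K0, j ≤ lev v → par^[j] v ∈ sp K0 ∧ lev (par^[j] v) + j = lev v := by
    intro j
    induction j with
    | zero => intro v hv _; exact ⟨hv, rfl⟩
    | succ j ih =>
      intro v hv hj
      obtain ⟨a1, a2⟩ := ih v hv (by omega)
      obtain ⟨-, b2, b3⟩ := hpar _ a1 (by omega)
      rw [Function.iterate_succ_apply']
      exact ⟨b2, by omega⟩
  let N := (univ : Finset V).sup lev
  have hN : ∀ v, lev v ≤ N := fun v => Finset.le_sup (f := lev) (mem_univ v)
  obtain ⟨i, -, hi⟩ := exists_dense_part K0 (range (N + 1))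
    (fun i => restr K0 (fun x y => min (lev x) (lev y) = i)) 2 (4 * (4 * k)) (by
      intro x y hxy
      refine ⟨min (lev x) (lev y), ?_, hxy, rfl, min_comm _ _⟩
      have := hN x
      rw [mem_range]; omega) (by
      have e1 : (sp K0).card = ∑ i ∈ range (N + 1), ((sp K0).filter (fun v => lev v = i)).card :=
        Finset.card_eq_sum_card_fiberwise (f := lev) (fun v _ => by
          have := hN v
          simp only [coe_range, Set.mem_Iio]; omega)
      have e2 : (sp K0).card =
          ∑ i ∈ range (N + 1), ((sp K0).filter (fun v => lev v - 1 = i)).card :=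
        Finset.card_eq_sum_card_fiberwise (f := fun v => lev v - 1) (fun v _ => by
          have := hN v
          simp only [coe_range, Set.mem_Iio]; omega)
      have e3 : 2 * (sp K0).card = ∑ i ∈ range (N + 1),
          (((sp K0).filter (fun v => lev v = i)).card +
            ((sp K0).filter (fun v => lev v - 1 = i)).card) := by
        rw [Finset.sum_add_distrib, ← e1, ← e2]; ring
      rw [e3]
      refine Finset.sum_le_sum fun i _ => ?_
      refine le_trans (Finset.card_le_card ?_) (Finset.card_union_le _ _)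
      intro v hv
      obtain ⟨w, hw, hw1, -⟩ := mem_sp.1 hv
      have := hlevadj _ _ hw
      simp only [mem_union, mem_filter]
      have hv0 : v ∈ sp K0 := mem_sp.2 ⟨w, hw⟩
      by_cases hh : lev v = i
      · left; exact ⟨hv0, hh⟩
      · right; exact ⟨hv0, by omega⟩) hK01
  obtain ⟨K1, hK1le, hK11, hK12, hK1c⟩ := exists_core _ _ hi
  have hK10 : K1 ≤ K0 := hK1le.trans (restr_le _ _)
  have hmin : ∀ x y, K1.Adj x y → min (lev x) (lev y) = i := fun x y hxy => (hK1le hxy).2.1
  have hge : ∀ v ∈ sp K1, i ≤ lev v := by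
    intro v hv
    obtain ⟨w, hw⟩ := mem_sp.1 hv
    have := hmin _ _ hw
    omega
  have hP : ∃ h, h ≤ i ∧ ∀ x ∈ sp K1, ∀ y ∈ sp K1, lev x = i → lev y = i →
      par^[h] x = par^[h] y := by
    refine ⟨i, le_rfl, fun x hx y hy lx ly => ?_⟩
    obtain ⟨a1, a2⟩ := hiter i x (sp_mono hK10 hx) (by omega)
    obtain ⟨b1, b2⟩ := hiter i y (sp_mono hK10 hy) (by omega)
    rw [hlev0 _ a1 (by omega), hlev0 _ b1 (by omega)]
  have hnot0 : ¬ ∀ x ∈ sp K1, ∀ y ∈ sp K1, lev x = i → lev y = i → x = y := by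
    intro hall
    have hne : (prs K1).Nonempty := by
      rw [← Finset.card_pos]; omega
    obtain ⟨⟨w, w'⟩, hw⟩ := hne
    have hw' : w ∈ sp K1 := mem_sp.2 ⟨w', mem_prs.1 hw⟩
    obtain ⟨z, p, hp, hl⟩ := exists_path K1 3
      (fun v hv => by have := hK12 v hv; omega) w hw' 3 le_rfl
    match p, hp, hl with
    | .cons (v := z1) h1 (.cons (v := z2) h2 (.cons h3 .nil)), hp, _ =>
      simp only [Walk.isPath_def, Walk.support_cons, Walk.support_nil, List.nodup_cons,
        List.mem_cons, List.not_mem_nil, List.nodup_nil] at hp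
      have m1 := hmin _ _ h1
      have m3 := hmin _ _ h3
      have s0 : z ∈ sp K1 := mem_sp.2 ⟨_, h1⟩
      have s1 : z1 ∈ sp K1 := mem_sp.2 ⟨_, h2⟩
      have s2 : z2 ∈ sp K1 := mem_sp.2 ⟨_, h3⟩
      have c02 := hall z s0 z2 s2
      have c03 := hall z s0 w hw'
      have c12 := hall z1 s1 z2 s2
      have c13 := hall z1 s1 w hw'
      grind
  obtain ⟨h, hfind⟩ : ∃ h, Nat.find hP = h + 1 := by
    refine ⟨Nat.find hP - 1, ?_⟩
    have : Nat.find hP ≠ 0 := by
      intro h0
      have := (Nat.find_spec hP).2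
      rw [h0] at this
      exact hnot0 this
    omega
  have hspec := Nat.find_spec hP
  rw [hfind] at hspec
  have hmin' := Nat.find_min hP (show h < Nat.find hP by omega)
  push Not at hmin'
  obtain ⟨x0, hx0, y0, hy0, lx0, ly0, hxy0⟩ := hmin' (by omega)
  let A : Bool → Set V := fun σ =>
    {x | x ∈ sp K1 ∧ lev x = i ∧ (par^[h] x = par^[h] x0 ↔ σ = true)}
  refine two_sides G K1 (hK10.trans hK0le) k l (2 * (h + 1)) hk (by omega) A ?_ hK1c ?_ hK11 ?_
  · intro σ
    cases σ
    · exact ⟨y0, ⟨hy0, ly0, by simpa using fun hh => hxy0 hh.symm⟩, hy0⟩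
    · exact ⟨x0, ⟨hx0, lx0, by simp⟩, hx0⟩
  · intro x y hxy
    have m := hmin _ _ hxy
    by_cases hx : lev x = i
    · refine ⟨decide (par^[h] x = par^[h] x0), Or.inl ⟨mem_sp.2 ⟨y, hxy⟩, hx, by simp⟩⟩
    · refine ⟨decide (par^[h] y = par^[h] x0),
        Or.inr ⟨mem_sp.2 ⟨x, hxy.symm⟩, by omega, by simp⟩⟩
  · intro σ a ha b hb
    obtain ⟨a1, a2, a3⟩ := ha
    obtain ⟨b1, b2, b3⟩ := hb
    have hne : par^[h] a ≠ par^[h] b := by
      intro hh
      rw [hh, b3] at a3
      cases σ <;> simp at a3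
    obtain ⟨p, hp, hl, hs⟩ := tree_path G (↑(sp K0) : Set V) lev par hpar h i a b
      (sp_mono hK10 a1) (sp_mono hK10 b1) a2 b2 hspec.1 hne (hspec.2 a a1 b b1 a2 b2)
    refine ⟨p, hp, hl, fun v hv => ?_⟩
    rcases hs v hv with h | h | h
    · exact Or.inl h
    · exact Or.inr (Or.inl h)
    · right; right
      intro hv1
      have := hge v hv1
      omega

end Pool.Agent.MP_84a9df_co.H90
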