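import Pool.Agent.MP_84a9df_co.H90.Dense

/-! Upper bound for the number of edges of a graph with no cycle of length six. -/

namespace Pool.Agent.MP_84a9df_co.H90

open SimpleGraph Finset
open scoped Classical

variable {V : Type*} [Fintype V]

/-- `G` has a cycle of length `L` -/
def HasC {V : Type*} (G : SimpleGraph V) (L : ℕ) : Prop :=
  ∃ (v : V) (p : G.Walk v v), p.IsCycle ∧ p.length = L

omit [Fintype V] in
lemma HasC.mono {G H : SimpleGraph V} {L : ℕ} (h : H ≤ G) (hc : HasC H L) : HasC G L := by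
  obtain ⟨v, p, hp, hl⟩ := hc
  exact ⟨v, p.mapLe h, hp.mapLe h, by simpa using hl⟩

omit [Fintype V] in
lemma hasC_six {G : SimpleGraph V} {a b c d e f : V} (hab : G.Adj a b) (hbc : G.Adj b c)
    (hcd : G.Adj c d) (hde : G.Adj d e) (hef : G.Adj e f) (hfa : G.Adj f a)
    (hac : a ≠ c) (had : a ≠ d) (hae : a ≠ e) (hbd : b ≠ d) (hbe : b ≠ e) (hbf : b ≠ f)
    (hce : c ≠ e) (hcf : c ≠ f) (hdf : d ≠ f) : HasC G 6 := by
  refine ⟨a, .cons hab (.cons hbc (.cons hcd (.cons hde (.cons hef (.cons hfa .nil))))), ?_, rfl⟩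
  rw [Walk.isCycle_iff_isPath_tail_and_le_length]
  refine ⟨?_, by simp⟩
  have h1 := hab.ne
  have h2 := hbc.ne
  have h3 := hcd.ne
  have h4 := hde.ne
  have h5 := hef.ne
  have h6 := hfa.ne
  simp only [Walk.getVert_cons_succ, Walk.tail_cons, Walk.isPath_def,
    Walk.support_cons, Walk.support_nil, Walk.support_copy]
  simp only [List.nodup_cons, List.mem_cons, List.not_mem_nil, List.nodup_nil]
  grind

/-- the neighbourhood of a vertex spans few edges -/
lemma nbhd_sparse {G : SimpleGraph V} (hG : ¬ HasC G 6) (a : V) :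
    (prs (restr G (fun x _ => G.Adj a x))).card ≤ 6 * (nb G a).card := by
  by_contra hc
  have h1 : (sp (restr G (fun x _ => G.Adj a x))).card ≤ (nb G a).card := by
    apply Finset.card_le_card
    intro v hv
    obtain ⟨w, hw⟩ := mem_sp.1 hv
    exact mem_nb.2 hw.2.1
  obtain ⟨K, hKle, hK1, hK2, -⟩ := exists_core (restr G (fun x _ => G.Adj a x)) 6 (by omega)
  have hne : (prs K).Nonempty := by
    rw [← Finset.card_pos]; omega
  obtain ⟨⟨w, w'⟩, hw⟩ := hne
  have hw' : w ∈ sp K := mem_sp.2 ⟨w', mem_prs.1 hw⟩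
  obtain ⟨z, p, hp, hl⟩ := exists_path K 4 (fun v hv => by have := hK2 v hv; omega) w hw' 4 le_rfl
  apply hG
  have hadj : ∀ x y, K.Adj x y → G.Adj x y ∧ G.Adj a x ∧ G.Adj a y := fun x y h => hKle h
  match p, hp, hl with
  | .cons (v := z1) h1 (.cons (v := z2) h2 (.cons (v := z3) h3 (.cons h4 .nil))), hp, _ =>
    simp only [Walk.isPath_def, Walk.support_cons, Walk.support_nil, List.nodup_cons,
      List.mem_cons, List.not_mem_nil, List.nodup_nil] at hp
    obtain ⟨a1, a2, a3⟩ := hadj _ _ h1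
    obtain ⟨b1, b2, b3⟩ := hadj _ _ h2
    obtain ⟨c1, c2, c3⟩ := hadj _ _ h3
    obtain ⟨d1, d2, d3⟩ := hadj _ _ h4
    refine hasC_six a2 a1 b1 c1 d1 d3.symm a3.ne b3.ne c3.ne ?_ ?_ ?_ ?_ ?_ ?_ <;> grind

/-- `x`, `y` are distinct, non-adjacent, with at most two common neighbours -/
def far (G : SimpleGraph V) (x y : V) : Prop :=
  x ≠ y ∧ ¬ G.Adj x y ∧ (nb G x ∩ nb G y).card ≤ 2

/-- two-step walks from `a` whose end is not far from `a` -/
noncomputable def bad2 (G : SimpleGraph V) (a : V) : Finset (V × V) :=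
  univ.filter (fun p => G.Adj a p.1 ∧ G.Adj p.1 p.2 ∧ ¬ far G a p.2)

lemma card_bad2 {G : SimpleGraph V} (hG : ¬ HasC G 6) (a : V) :
    (bad2 G a).card ≤ 8 * (nb G a).card := by
  set T3 : Finset (V × V) := univ.filter (fun p => G.Adj a p.1 ∧ G.Adj p.1 p.2 ∧ a ≠ p.2 ∧
    ¬ G.Adj a p.2 ∧ 2 < (nb G a ∩ nb G p.2).card) with hT3
  have h1 : bad2 G a ⊆ (nb G a).image (fun b => (b, a)) ∪
      (prs (restr G (fun x _ => G.Adj a x)) ∪ T3) := by
    rintro ⟨b, v⟩ hp
    rw [bad2, mem_filter] at hp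
    obtain ⟨-, hab, hbv, hfar⟩ := hp
    simp only [mem_union, mem_image, mem_nb, Prod.mk.injEq, mem_prs, hT3, mem_filter, mem_univ,
      true_and, restr_adj]
    by_cases h1 : a = v
    · left; exact ⟨b, hab, rfl, h1⟩
    by_cases h2 : G.Adj a v
    · right; left; exact ⟨hbv, hab, h2⟩
    right; right
    refine ⟨hab, hbv, h1, h2, ?_⟩
    by_contra h3
    exact hfar ⟨h1, h2, not_lt.1 h3⟩
  have h2 : T3.card ≤ (nb G a).card := by
    refine Finset.card_le_card_of_injOn (fun p => p.1) ?_ ?_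
    · intro p hp
      simp only [hT3, coe_filter, mem_univ, true_and, Set.mem_ofPred_eq] at hp
      simpa using hp.1
    · rintro ⟨b, v⟩ hp ⟨b', v'⟩ hp' hbb
      simp only at hbb
      subst hbb
      simp only [hT3, coe_filter, mem_univ, true_and, Set.mem_ofPred_eq] at hp hp'
      obtain ⟨hab, hbv, hav, hnav, hc⟩ := hp
      obtain ⟨-, hbv', hav', hnav', hc'⟩ := hp'
      by_contra hne
      have hvv : v ≠ v' := fun h => hne (by rw [h])
      apply hG
      obtain ⟨b1, hb1, hb1'⟩ : ∃ b1 ∈ nb G a ∩ nb G v, b1 ≠ b := by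
        by_contra hh
        push Not at hh
        have : nb G a ∩ nb G v ⊆ {b} := fun x hx => by simpa using hh x hx
        have := Finset.card_le_card this
        simp at this
        omega
      obtain ⟨b2, hb2, hb2', hb2''⟩ : ∃ b2 ∈ nb G a ∩ nb G v', b2 ≠ b ∧ b2 ≠ b1 := by
        by_contra hh
        push Not at hh
        have : nb G a ∩ nb G v' ⊆ {b, b1} := fun x hx => by
          by_cases hxb : x = b
          · simp [hxb]
          · simp [hh x hx hxb]
        have h5 := Finset.card_le_card this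
        have h6 : ({b, b1} : Finset V).card ≤ 2 := Finset.card_le_two
        omega
      simp only [mem_inter, mem_nb] at hb1 hb2
      refine hasC_six hb1.1 hb1.2.symm hbv.symm hbv' hb2.2 hb2.1.symm hav hab.ne hav' hb1' ?_
        hb2''.symm hvv ?_ hb2'.symm
      · rintro rfl; exact hnav' hb1.1
      · rintro rfl; exact hnav hb2.1
  have h3 := Finset.card_le_card h1
  have h4 := Finset.card_union_le ((nb G a).image (fun b => (b, a)))
    (prs (restr G (fun x _ => G.Adj a x)) ∪ T3)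
  have h5 := Finset.card_union_le (prs (restr G (fun x _ => G.Adj a x))) T3
  have h6 : ((nb G a).image (fun b => (b, a))).card ≤ (nb G a).card := Finset.card_image_le
  have h7 := nbhd_sparse hG a
  omega

/-- walks with three edges -/
noncomputable def quad (G : SimpleGraph V) : Finset (Σ _ : V × V, V × V) :=
  (prs G).sigma (fun p => nb G p.1 ×ˢ nb G p.2)

lemma card_quad (G : SimpleGraph V) :
    (quad G).card = ∑ p ∈ prs G, (nb G p.1).card * (nb G p.2).card := by
  simp [quad, Finset.card_sigma]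

lemma mem_quad {G : SimpleGraph V} {x : Σ _ : V × V, V × V} :
    x ∈ quad G ↔ G.Adj x.1.1 x.1.2 ∧ G.Adj x.1.1 x.2.1 ∧ G.Adj x.1.2 x.2.2 := by
  simp [quad]

lemma good_le {G : SimpleGraph V} (hG : ¬ HasC G 6) :
    ((quad G).filter (fun x => far G x.1.1 x.2.2 ∧ far G x.1.2 x.2.1)).card ≤
      2 * ((sp G).card * (sp G).card) := by
  rw [← Finset.card_product]
  refine Finset.card_le_mul_card_image_of_maps_to (f := fun x => x.2) ?_ 2 ?_
  · intro x hx
    rw [mem_filter, mem_quad] at hx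
    rw [mem_product, mem_sp, mem_sp]
    exact ⟨⟨_, hx.1.2.1.symm⟩, ⟨_, hx.1.2.2.symm⟩⟩
  · rintro ⟨u, v⟩ _
    by_contra hc
    push Not at hc
    have share : ∀ a b a' b' : V, G.Adj a b → G.Adj a u → G.Adj b v → far G a v → far G b u →
        G.Adj a' b' → G.Adj a' u → G.Adj b' v → far G a' v → far G b' u → a = a' ∨ b = b' := by
      intro a b a' b' h1 h2 h3 h4 h5 h1' h2' h3' h4' h5'
      by_contra hne
      push Not at hne
      apply hG
      refine hasC_six h2.symm h1 h3 h3'.symm h1'.symm h2' h5.1.symm ?_ h5'.1.symm h4.1 ?_ hne.1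
        hne.2 ?_ h4'.1.symm
      · rintro rfl; exact h4.2.1 h2
      · rintro rfl; exact h4.2.1 h3'
      · rintro rfl; exact h5.2.1 h2'
    have three : ∀ x y b1 b2 b3 : V, far G x y → G.Adj x b1 → G.Adj x b2 → G.Adj x b3 →
        G.Adj b1 y → G.Adj b2 y → G.Adj b3 y → b1 = b2 ∨ b1 = b3 ∨ b2 = b3 := by
      intro x y b1 b2 b3 hf h1 h2 h3 k1 k2 k3
      by_contra hne
      push Not at hne
      have : 2 < (nb G x ∩ nb G y).card := by
        rw [Finset.two_lt_card_iff]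
        refine ⟨b1, b2, b3, ?_, ?_, ?_, hne.1, hne.2.1, hne.2.2⟩ <;>
          simp only [mem_inter, mem_nb]
        · exact ⟨h1, k1.symm⟩
        · exact ⟨h2, k2.symm⟩
        · exact ⟨h3, k3.symm⟩
      have := hf.2.2
      omega
    rw [Finset.two_lt_card_iff] at hc
    obtain ⟨⟨⟨a1, b1⟩, w1⟩, ⟨⟨a2, b2⟩, w2⟩, ⟨⟨a3, b3⟩, w3⟩, h1, h2, h3, n12, n13, n23⟩ := hc
    simp only [mem_filter, mem_quad] at h1 h2 h3
    obtain ⟨⟨⟨p1, q1, r1⟩, s1, t1⟩, rfl⟩ := h1
    obtain ⟨⟨⟨p2, q2, r2⟩, s2, t2⟩, rfl⟩ := h2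
    obtain ⟨⟨⟨p3, q3, r3⟩, s3, t3⟩, rfl⟩ := h3
    simp only at q1 r1 s1 t1 q2 r2 s2 t2 q3 r3 s3 t3
    have n12' : a1 = a2 → b1 ≠ b2 := by rintro rfl rfl; exact n12 rfl
    have n13' : a1 = a3 → b1 ≠ b3 := by rintro rfl rfl; exact n13 rfl
    have n23' : a2 = a3 → b2 ≠ b3 := by rintro rfl rfl; exact n23 rfl
    have e12 := share _ _ _ _ p1 q1 r1 s1 t1 p2 q2 r2 s2 t2
    have e13 := share _ _ _ _ p1 q1 r1 s1 t1 p3 q3 r3 s3 t3
    have e23 := share _ _ _ _ p2 q2 r2 s2 t2 p3 q3 r3 s3 t3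
    by_cases ha : a1 = a2 ∧ a1 = a3
    · obtain ⟨rfl, rfl⟩ := ha
      have := three a1 v b1 b2 b3 s1 p1 p2 p3 r1 r2 r3
      grind
    · have hb : b1 = b2 ∧ b1 = b3 := by grind
      obtain ⟨rfl, rfl⟩ := hb
      have := three b1 u a1 a2 a3 t1 p1.symm p2.symm p3.symm q1 q2 q3
      grind

lemma bad_le1 {G : SimpleGraph V} (hG : ¬ HasC G 6) :
    ((quad G).filter (fun x => ¬ far G x.1.1 x.2.2)).card ≤
      8 * ∑ a, (nb G a).card * (nb G a).card := by
  have h1 : ((quad G).filter (fun x => ¬ far G x.1.1 x.2.2)).card ≤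
      ((univ : Finset V).sigma (fun a => nb G a ×ˢ bad2 G a)).card := by
    refine Finset.card_le_card_of_injOn (fun x => ⟨x.1.1, (x.2.1, (x.1.2, x.2.2))⟩) ?_ ?_
    · intro x hx
      simp only [coe_filter, Set.mem_ofPred_eq, mem_quad] at hx
      simp only [mem_coe, mem_sigma, mem_univ, mem_product, mem_nb, true_and, bad2, mem_filter]
      exact ⟨hx.1.2.1, hx.1.1, hx.1.2.2, hx.2⟩
    · rintro ⟨⟨a, b⟩, ⟨u, v⟩⟩ _ ⟨⟨a', b'⟩, ⟨u', v'⟩⟩ _ h
      simp only [Sigma.mk.injEq, heq_eq_eq, Prod.mk.injEq] at h ⊢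
      tauto
  refine h1.trans ?_
  rw [Finset.card_sigma, Finset.mul_sum]
  refine Finset.sum_le_sum fun a _ => ?_
  rw [Finset.card_product]
  have := card_bad2 hG a
  nlinarith

lemma bad_le2 {G : SimpleGraph V} (hG : ¬ HasC G 6) :
    ((quad G).filter (fun x => ¬ far G x.1.2 x.2.1)).card ≤
      8 * ∑ a, (nb G a).card * (nb G a).card := by
  have h1 : ((quad G).filter (fun x => ¬ far G x.1.2 x.2.1)).card ≤
      ((univ : Finset V).sigma (fun a => nb G a ×ˢ bad2 G a)).card := by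
    refine Finset.card_le_card_of_injOn (fun x => ⟨x.1.2, (x.2.2, (x.1.1, x.2.1))⟩) ?_ ?_
    · intro x hx
      simp only [coe_filter, Set.mem_ofPred_eq, mem_quad] at hx
      simp only [mem_coe, mem_sigma, mem_univ, mem_product, mem_nb, true_and, bad2, mem_filter]
      exact ⟨hx.1.2.2, hx.1.1.symm, hx.1.2.1, hx.2⟩
    · rintro ⟨⟨a, b⟩, ⟨u, v⟩⟩ _ ⟨⟨a', b'⟩, ⟨u', v'⟩⟩ _ h
      simp only [Sigma.mk.injEq, heq_eq_eq, Prod.mk.injEq] at h ⊢
      tauto
  refine h1.trans ?_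
  rw [Finset.card_sigma, Finset.mul_sum]
  refine Finset.sum_le_sum fun a _ => ?_
  rw [Finset.card_product]
  have := card_bad2 hG a
  nlinarith

lemma quad_le {G : SimpleGraph V} (hG : ¬ HasC G 6) :
    (quad G).card ≤ 2 * ((sp G).card * (sp G).card) +
      16 * ∑ a, (nb G a).card * (nb G a).card := by
  have h1 : quad G ⊆ (quad G).filter (fun x => far G x.1.1 x.2.2 ∧ far G x.1.2 x.2.1) ∪
      ((quad G).filter (fun x => ¬ far G x.1.1 x.2.2) ∪
        (quad G).filter (fun x => ¬ far G x.1.2 x.2.1)) := by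
    intro x hx
    simp only [mem_union, mem_filter]
    tauto
  have h2 := Finset.card_le_card h1
  have h3 := Finset.card_union_le
    ((quad G).filter (fun x => far G x.1.1 x.2.2 ∧ far G x.1.2 x.2.1))
    ((quad G).filter (fun x => ¬ far G x.1.1 x.2.2) ∪
        (quad G).filter (fun x => ¬ far G x.1.2 x.2.1))
  have h4 := Finset.card_union_le ((quad G).filter (fun x => ¬ far G x.1.1 x.2.2))
    ((quad G).filter (fun x => ¬ far G x.1.2 x.2.1))
  have h5 := good_le hG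
  have h6 := bad_le1 hG
  have h7 := bad_le2 hG
  omega

lemma sq_le_quad (G : SimpleGraph V) (t : ℕ) (hdeg : ∀ v ∈ sp G, t < 2 * (nb G v).card) :
    t * ∑ a, (nb G a).card * (nb G a).card ≤ 2 * (quad G).card := by
  rw [card_quad, sum_prs G (fun a b => (nb G a).card * (nb G b).card), Finset.mul_sum,
    Finset.mul_sum]
  refine Finset.sum_le_sum fun a _ => ?_
  have h1 : ∑ _b ∈ nb G a, (nb G a).card * t ≤
      ∑ b ∈ nb G a, 2 * ((nb G a).card * (nb G b).card) := by
    refine Finset.sum_le_sum fun b hb => ?_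
    have := hdeg b (mem_sp.2 ⟨a, (mem_nb.1 hb).symm⟩)
    nlinarith
  rw [Finset.sum_const, smul_eq_mul, ← Finset.mul_sum] at h1
  nlinarith

lemma amgm3 (D x y : ℝ) (hD : 0 ≤ D) (hx : 0 < x) (hy : 0 < y) :
    D ^ 2 * (3 - D * (1 / x) - D * (1 / y)) ≤ x * y := by
  have h1 : D ^ 2 * (3 - D * (1 / x) - D * (1 / y)) =
      (3 * D ^ 2 * (x * y) - D ^ 3 * (x + y)) / (x * y) := by
    field_simp
    ring
  rw [h1, div_le_iff₀ (by positivity)]
  obtain ⟨s, hs, hss⟩ : ∃ s : ℝ, 0 < s ∧ s ^ 2 = x * y :=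
    ⟨Real.sqrt (x * y), Real.sqrt_pos.2 (by positivity), Real.sq_sqrt (by positivity)⟩
  have h2 : 2 * s ≤ x + y := by
    by_contra h
    push Not at h
    nlinarith [sq_nonneg (x - y)]
  rw [← hss]
  have h3 : D ^ 3 * (2 * s) ≤ D ^ 3 * (x + y) := mul_le_mul_of_nonneg_left h2 (by positivity)
  have h4 : 0 ≤ s * ((s - D) ^ 2 * (s + 2 * D)) := by positivity
  nlinarith

lemma quad_ge (G : SimpleGraph V) (D : ℝ) (hD : 0 ≤ D) :
    D ^ 2 * (3 * (prs G).card - 2 * D * (sp G).card) ≤ (quad G).card := by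
  have h1 : ∑ p ∈ prs G, (1 / ((nb G p.1).card : ℝ)) = (sp G).card := by
    rw [sum_prs G (fun a _ => (1 / ((nb G a).card : ℝ)))]
    rw [Finset.card_eq_sum_ones, sp, Finset.sum_filter]
    push_cast
    refine Finset.sum_congr rfl fun a _ => ?_
    rw [Finset.sum_const, nsmul_eq_mul]
    split_ifs with h
    · obtain ⟨w, hw⟩ := h
      have : 0 < (nb G a).card := Finset.card_pos.2 ⟨w, mem_nb.2 hw⟩
      field_simp
    · have : nb G a = ∅ := by
        ext w; simp only [mem_nb, notMem_empty, iff_false]; exact fun hw => h ⟨w, hw⟩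
      simp [this]
  have h2 : ∑ p ∈ prs G, (1 / ((nb G p.2).card : ℝ)) = (sp G).card := by
    rw [← h1]
    exact (sum_prs_swap G (fun a _ => (1 / ((nb G a).card : ℝ)))).symm
  have h3 : D ^ 2 * (3 * (prs G).card - 2 * D * (sp G).card) =
      ∑ p ∈ prs G, D ^ 2 * (3 - D * (1 / ((nb G p.1).card : ℝ)) -
        D * (1 / ((nb G p.2).card : ℝ))) := by
    rw [← Finset.mul_sum, Finset.sum_sub_distrib, Finset.sum_sub_distrib, ← Finset.mul_sum,
      ← Finset.mul_sum, h1, h2, Finset.sum_const, nsmul_eq_mul]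
    ring
  rw [h3, card_quad]
  push_cast
  refine Finset.sum_le_sum fun p hp => ?_
  rw [mem_prs] at hp
  apply amgm3 _ _ _ hD
  · exact_mod_cast Finset.card_pos.2 ⟨p.2, mem_nb.2 hp⟩
  · exact_mod_cast Finset.card_pos.2 ⟨p.1, mem_nb.2 hp.symm⟩

/-- the hexagon bound -/
theorem hex_bound {G : SimpleGraph V} (hG : ¬ HasC G 6) (t : ℕ) (ht : 32 ≤ t)
    (h : t * Fintype.card V < (prs G).card) :
    (t : ℝ) ^ 2 * (t - 32) ≤ 2 * Fintype.card V := by
  have h0 : (sp G).card ≤ Fintype.card V := Finset.card_le_univ _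
  have h0' : t * (sp G).card ≤ t * Fintype.card V := Nat.mul_le_mul_left _ h0
  obtain ⟨K, hKle, hK1, hK2, -⟩ := exists_core G t (by omega)
  have hK : ¬ HasC K 6 := fun hc => hG (hc.mono hKle)
  have hn : (sp K).card ≤ Fintype.card V := Finset.card_le_univ _
  have hpos : 0 < (sp K).card := by
    have hne : (prs K).Nonempty := by
      rw [← Finset.card_pos]; omega
    obtain ⟨⟨w, w'⟩, hw⟩ := hne
    exact Finset.card_pos.2 ⟨w, mem_sp.2 ⟨w', mem_prs.1 hw⟩⟩
  have a1 := quad_le hK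
  have a2 := sq_le_quad K t hK2
  have a3 := quad_ge K t (by positivity)
  set n := (sp K).card
  set E := (prs K).card
  set W := (quad K).card
  set S := ∑ a, (nb K a).card * (nb K a).card
  have b1 : (W : ℝ) ≤ 2 * (n * n) + 16 * S := by exact_mod_cast a1
  have b2 : (t : ℝ) * S ≤ 2 * W := by exact_mod_cast a2
  have b3 : (t : ℝ) * n ≤ E := by exact_mod_cast hK1.le
  have b4 : (n : ℝ) ≤ Fintype.card V := by exact_mod_cast hn
  have b5 : (0 : ℝ) < n := by exact_mod_cast hpos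
  have b6 : (32 : ℝ) ≤ t := by exact_mod_cast ht
  have c1 : (t : ℝ) ^ 3 * n ≤ W := by nlinarith
  have c2 : ((t : ℝ) - 32) * W ≤ t * (2 * (n * n)) := by nlinarith
  have c3 : ((t : ℝ) - 32) * (t ^ 3 * n) ≤ t * (2 * (n * n)) :=
    le_trans (mul_le_mul_of_nonneg_left c1 (by linarith)) c2
  have c4 : (t : ℝ) ^ 2 * (t - 32) ≤ 2 * n := by
    have htn : (0 : ℝ) < t * n := by positivity
    have : (t * n) * ((t : ℝ) ^ 2 * (t - 32)) ≤ (t * n) * (2 * n) := by nlinarith
    exact le_of_mul_le_mul_left this htn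
  linarith

end Pool.Agent.MP_84a9df_co.H90
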